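import Pool.Agent.Lib.XI.Pts
import Pool.Agent.Lib.XI.Mid
import Pool.Agent.Lib.XI.BigC

namespace Pool.Agent.Results.MP_c54d0a_an.Threshold

open Pool.Agent.Lib.MP_c54d0a_an

/-- The truncated cosine transform of the Xi kernel has only real zeros exactly when the
truncation point is at most a threshold lying between `0.256205` and `0.256206`. -/
theorem result : ∃ s : ℝ, 0.256205 < s ∧ s < 0.256206 ∧
    ∀ a : ℝ, 0 < a → ((∀ z : ℂ, F a z = 0 → z.im = 0) ↔ a ≤ s) :=
  Pool.Agent.Lib.XI.main (fun _ => Pool.Agent.Lib.XI.mid) (fun _ => Pool.Agent.Lib.XI.Big.big)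

end Pool.Agent.Results.MP_c54d0a_an.Threshold
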